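import Pool.Agent.helper56.SG.SpecG

/-!
# Project sg, module ACT: the action on the disc
-/

set_option autoImplicit false

open MeasureTheory Set Metric Filter Topology
open scoped ENNReal NNReal ComplexConjugate
open Pool.Agent.SG

noncomputable section

namespace Pool.Agent.SGG

theorem ACT (hMOB : MOB_stmt) : ACT_stmt := by
  intro Γ _ A z hz
  have hiso : ∀ γ, IsoM (A.a γ) (A.b γ) := fun γ => A.norm_eq γ
  have hball : ∀ γ, ∀ w ∈ ball (0 : ℂ) 1, A.act γ w ∈ ball (0 : ℂ) 1 := fun γ w hw =>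
    (hMOB _ _ (hiso γ)).2.2.1 w hw
  have hmul : ∀ γ δ, ∀ w ∈ ball (0 : ℂ) 1, A.act (γ * δ) w = A.act γ (A.act δ w) := by
    intro γ δ w hw
    rw [mem_ball_zero_iff] at hw
    exact A.map_mul γ δ w hw.le
  have hone : ∀ w ∈ ball (0 : ℂ) 1, A.act 1 w = w := by
    intro w hw
    have h1 := hmul 1 1 w hw
    rw [one_mul] at h1
    have h2 := (hMOB _ _ (hiso 1)).2.2.2.1
    have h3 := h2 w hw
    have h4 := h2 (A.act 1 w) (hball 1 w hw)
    have h5 : mob (A.a 1) (A.b 1) (A.act 1 w) = A.act 1 w := h1.symm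
    have h6 : mob (A.a 1) (A.b 1) w = A.act 1 w := rfl
    rw [h5, ← h6, h3] at h4
    rw [← h6]
    exact h4.symm
  refine ⟨fun γ => ⟨hiso γ, hball γ z hz, ?_, ?_⟩, hone z hz, fun γ δ => hmul γ δ z hz⟩
  · rw [← hmul _ _ z hz, inv_mul_cancel]
    exact hone z hz
  · rw [← hmul _ _ z hz, mul_inv_cancel]
    exact hone z hz

end Pool.Agent.SGG
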