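import Pool.Agent.helper56.SG.SpecG

/-!
# Project sg, module ANB: an antisymmetric double integral vanishes
-/

set_option autoImplicit false

open MeasureTheory Set Metric Filter Topology
open scoped ENNReal NNReal ComplexConjugate
open Pool.Agent.SG

noncomputable section

namespace Pool.Agent.SGG

theorem ANB (hHYC : HYC_stmt) (hFUB : FUB_stmt) : ANB_stmt := by
  intro Γ _ A χ r hP Φ hΦ hanti
  have hae : ∀ᵐ x ∂hyp, x ∈ ball (0 : ℂ) 1 := hHYC.1
  set G : ℂ → ℂ → ℝ := fun x y => χ x * (χ y * Φ x y) with hG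
  have hGc : ContinuousOn (fun q : ℂ × ℂ => G q.1 q.2) (ball (0 : ℂ) 1 ×ˢ ball (0 : ℂ) 1) := by
    have h1 : ContinuousOn (fun q : ℂ × ℂ => χ q.1) (ball (0 : ℂ) 1 ×ˢ ball (0 : ℂ) 1) :=
      ContinuousOn.comp hP.cb continuousOn_fst fun q hq => hq.1
    have h2 : ContinuousOn (fun q : ℂ × ℂ => χ q.2) (ball (0 : ℂ) 1 ×ˢ ball (0 : ℂ) 1) :=
      ContinuousOn.comp hP.cb continuousOn_snd fun q hq => hq.2
    exact h1.mul (h2.mul hΦ)
  have hG0 : ∀ x ∈ ball (0 : ℂ) 1, ∀ y ∈ ball (0 : ℂ) 1, r < ‖x‖ ∨ r < ‖y‖ → G x y = 0 := by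
    intro x hx y hy h
    rcases h with h | h
    · simp only [hG, hP.supp x hx h, zero_mul]
    · simp only [hG, hP.supp y hy h, zero_mul, mul_zero]
  have hI : ∫ x, χ x * (∫ y, χ y * Φ x y ∂hyp) ∂hyp = ∫ x, (∫ y, G x y ∂hyp) ∂hyp := by
    refine integral_congr_ae (Filter.Eventually.of_forall fun x => ?_)
    simp only [hG]
    rw [integral_const_mul]
  have hswap := hFUB G r hP.r1 hGc hG0
  have hneg : ∫ y, (∫ x, G x y ∂hyp) ∂hyp = -∫ x, (∫ y, G x y ∂hyp) ∂hyp := by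
    rw [← integral_neg]
    refine integral_congr_ae ?_
    filter_upwards [hae] with y hy
    rw [← integral_neg]
    refine integral_congr_ae ?_
    filter_upwards [hae] with x hx
    simp only [hG]
    rw [hanti y hy x hx]
    ring
  rw [hI]
  rw [hneg] at hswap
  linarith

end Pool.Agent.SGG
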