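import Pool.Agent.helper56.SG.SpecG

/-!
# Project sg, module CHV: change of variables
-/

set_option autoImplicit false

open MeasureTheory Set Metric Filter Topology
open scoped ENNReal NNReal ComplexConjugate
open Pool.Agent.SG

noncomputable section

namespace Pool.Agent.SGG

theorem CHV (hMOB : MOB_stmt) (hHYI : HYI_stmt) (hHYC : HYC_stmt) : CHV_stmt := by
  intro a b hab g hg
  have hmeas : Measurable (mob a b) := (hMOB a b hab).2.2.2.2.2.2.2.2
  have hg2 : AEStronglyMeasurable g (hyp.map (mob a b)) := by
    rw [hHYI a b hab]
    exact hHYC.2.2.2.2.1 g hg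
  have h := integral_map hmeas.aemeasurable hg2
  rw [hHYI a b hab] at h
  exact h.symm

end Pool.Agent.SGG
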