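import Pool.Agent.helper68.SG.SpecF

/-!
# Project sg, module F02: from a `PMF` to a `Walk`
-/

set_option autoImplicit false

open MeasureTheory Set Metric Filter Topology
open scoped ENNReal NNReal ComplexConjugate commutatorElement

namespace Pool.Agent.SG

theorem F02 : F02_stmt := by
  intro Γ _ μ hμ
  refine ⟨⟨hμ.fin.toFinset, fun γ => μ γ, ?_, ?_, ?_⟩, ?_, fun γ => rfl⟩
  · intro s hs
    rw [Set.Finite.mem_toFinset] at hs
    exact (PMF.mem_support_iff μ s).1 hs
  · rw [← PMF.tsum_coe μ]
    refine (tsum_eq_sum fun γ hγ => ?_).symm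
    rw [Set.Finite.mem_toFinset] at hγ
    exact (PMF.apply_eq_zero_iff μ γ).2 hγ
  · rw [Set.Finite.coe_toFinset]
    refine (Submonoid.eq_top_iff' _).2 fun x => ?_
    have hx : x ∈ Subsemigroup.closure μ.support := by
      rw [hμ.gen]
      exact Subsemigroup.mem_top x
    induction hx using Subsemigroup.closure_induction with
    | mem y hy => exact Submonoid.subset_closure hy
    | mul y z _ _ hy hz => exact Submonoid.mul_mem _ hy hz
  · exact Set.Finite.coe_toFinset hμ.fin

end Pool.Agent.SG
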