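import Pool.Agent.helper56.SG.SpecG

/-!
# Project sg, module GRO: growth of the primitive
-/

set_option autoImplicit false

open MeasureTheory Set Metric Filter Topology
open scoped ENNReal NNReal ComplexConjugate
open Pool.Agent.SG

noncomputable section

namespace Pool.Agent.SGG

theorem GRO (hACT : ACT_stmt) (hMOB : MOB_stmt) (hGLO : GLO_stmt) : GRO_stmt := by
  intro Γ _ A hA ψ F hF hequi
  obtain ⟨r, hr, hco⟩ := hA
  -- invariance
  have hinv : ∀ γ, ∀ z ∈ ball (0 : ℂ) 1,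
      (1 - ‖A.act γ z‖ ^ 2) * ‖deriv F (A.act γ z)‖ = (1 - ‖z‖ ^ 2) * ‖deriv F z‖ := by
    intro γ z hz
    obtain ⟨-, hq, hb, -, -, hder, hnorm, -, -⟩ := hMOB (A.a γ) (A.b γ) (A.norm_eq γ)
    have hz1 : ‖z‖ ≤ 1 := (mem_ball_zero_iff.1 hz).le
    have hq0 := hq z hz1
    have hmz : A.act γ z ∈ ball (0 : ℂ) 1 := hb z hz
    have h1 : HasDerivAt (A.act γ) (1 / (conj (A.b γ) * z + conj (A.a γ)) ^ 2) z := hder z hz
    have h2 : HasDerivAt F (deriv F (A.act γ z)) (A.act γ z) :=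
      (hF.differentiableAt (isOpen_ball.mem_nhds hmz)).hasDerivAt
    have h3 := h2.comp z h1
    have h4 : HasDerivAt F (deriv F z) z := (hF.differentiableAt (isOpen_ball.mem_nhds hz)).hasDerivAt
    have h5 : HasDerivAt (fun w => F w + ψ γ) (deriv F z) z := h4.add_const (ψ γ)
    have h6 : (F ∘ A.act γ) =ᶠ[𝓝 z] fun w => F w + ψ γ := by
      filter_upwards [isOpen_ball.mem_nhds hz] with w hw using hequi γ w hw
    have h7 := (h3.congr_of_eventuallyEq h6.symm).unique h5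
    have h8 : 1 - ‖A.act γ z‖ ^ 2 = (1 - ‖z‖ ^ 2) / ‖conj (A.b γ) * z + conj (A.a γ)‖ ^ 2 :=
      hnorm z hz
    have hn : ‖conj (A.b γ) * z + conj (A.a γ)‖ ≠ 0 := norm_ne_zero_iff.2 hq0
    rw [h8, ← h7, norm_mul, norm_div, norm_one, norm_pow]
    field_simp
  have hdc : ContinuousOn (deriv F) (ball (0 : ℂ) 1) := (hF.deriv isOpen_ball).continuousOn
  have hsub : closedBall (0 : ℂ) r ⊆ ball 0 1 := closedBall_subset_ball hr
  have hcont : ContinuousOn (fun z : ℂ => (1 - ‖z‖ ^ 2) * ‖deriv F z‖) (closedBall (0 : ℂ) r) :=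
    (by fun_prop : Continuous fun z : ℂ => 1 - ‖z‖ ^ 2).continuousOn.mul (hdc.mono hsub).norm
  obtain ⟨C₀, hC₀⟩ := (isCompact_closedBall (0 : ℂ) r).exists_bound_of_continuousOn hcont
  have hbd : ∀ z ∈ ball (0 : ℂ) 1, (1 - ‖z‖ ^ 2) * ‖deriv F z‖ ≤ C₀ := by
    intro z hz
    obtain ⟨γ, hγ⟩ := hco z (mem_ball_zero_iff.1 hz)
    rw [← hinv γ z hz]
    exact (le_abs_self _).trans (hC₀ _ (mem_closedBall_zero_iff.2 hγ))
  set C : ℝ := |C₀| + ‖F 0‖ + 1 with hC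
  have hC0 : C₀ ≤ C := by
    have := le_abs_self C₀
    have := norm_nonneg (F 0)
    linarith
  have hC1 : 0 < C := by positivity
  have hbd2 : ∀ z ∈ ball (0 : ℂ) 1, (1 - ‖z‖ ^ 2) * ‖deriv F z‖ ≤ C := fun z hz =>
    (hbd z hz).trans hC0
  refine ⟨C, hC1, fun z hz => ?_, hbd2⟩
  have h9 := hGLO F C hF hbd2 z hz
  have h10 : ‖F z‖ ≤ ‖F z - F 0‖ + ‖F 0‖ := by
    have := norm_add_le (F z - F 0) (F 0)
    rwa [sub_add_cancel] at this
  have h11 : ‖F 0‖ ≤ C := by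
    have := abs_nonneg C₀
    linarith
  linarith

end Pool.Agent.SGG
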