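import Pool.Agent.helper68.SG.SpecK

/-!
# Project sg, module K04: the one scale estimate
-/

set_option autoImplicit false

open MeasureTheory Set Metric Filter Topology
open scoped ENNReal NNReal ComplexConjugate

namespace Pool.Agent.SG

theorem K04_ae {m : Measure ℂ} (h : m circᶜ = 0) : ∀ᵐ ξ ∂m, ‖ξ‖ = 1 := by
  have h1 : {ξ : ℂ | ¬ ‖ξ‖ = 1} = circᶜ := by
    ext ξ
    simp [circ]
  exact ae_iff.2 (by rw [h1]; exact h)

theorem K04_meas {m : Measure ℂ} (h : m circᶜ = 0) {H : ℂ → ℂ} (hH : ContinuousOn H circ) :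
    AEStronglyMeasurable H m := by
  have h1 : m.restrict circ = m := by
    apply Measure.restrict_eq_self_of_ae_mem
    filter_upwards [K04_ae h] with ξ hξ
    simpa [circ] using hξ
  rw [← h1]
  exact hH.aestronglyMeasurable isClosed_sphere.measurableSet

theorem K04_poi (ρ : ℝ) (h0 : 0 < ρ) (h1 : ρ < 1) (ζ ξ : ℂ) (hζ : ‖ζ‖ = 1) (hξ : ‖ξ‖ = 1) :
    ‖poi (ρ * ζ) ξ‖ ≤ (1 - ρ ^ 2) / (1 - ρ) ^ 2 := by
  have hn : ‖(ρ : ℂ) * ζ‖ = ρ := by
    rw [norm_mul, hζ, mul_one, Complex.norm_real, Real.norm_eq_abs, abs_of_pos h0]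
  have h2 : 1 - ρ ≤ ‖ξ - ρ * ζ‖ := by
    have := norm_sub_norm_le ξ ((ρ : ℂ) * ζ)
    rw [hn, hξ] at this
    exact this
  have h3 : 0 < 1 - ρ := by linarith
  have h4 : 0 ≤ 1 - ρ ^ 2 := by nlinarith
  rw [poi, hn, Real.norm_eq_abs, abs_of_nonneg (div_nonneg h4 (sq_nonneg _))]
  exact div_le_div_of_nonneg_left h4 (by positivity) (pow_le_pow_left₀ h3.le h2 2)

theorem K04_Pm (ν : Measure ℂ) [SFinite ν] (ρ : ℝ) :
    StronglyMeasurable fun ζ : ℂ => ∫ ξ, poi (ρ * ζ) ξ ∂ν := by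
  have h : StronglyMeasurable (fun p : ℂ × ℂ => poi (ρ * p.1) p.2) := by
    apply Measurable.stronglyMeasurable
    unfold poi
    fun_prop
  exact h.integral_prod_right

theorem K04 (h1 : K01_stmt) (h3 : K03_stmt) : K04_stmt := by
  intro R H hR hH ν f C a hν hreg ρ hρ M₁ M₂ hM₁ hM₂
  obtain ⟨hlp, hlc, -⟩ := h1
  have hνc : ν circᶜ = 0 := by
    rw [hreg.dens]
    exact withDensity_absolutelyContinuous _ _ hlc
  have hsub : circ ⊆ ball (0 : ℂ) R := by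
    intro ξ hξ
    rw [circ, mem_sphere_zero_iff_norm] at hξ
    rw [mem_ball_zero_iff, hξ]
    exact hR
  have hHc : ContinuousOn H circ := (hH.continuousOn).mono hsub
  have hHl := K04_meas hlc hHc
  have hM₁0 : 0 ≤ M₁ := (norm_nonneg _).trans (hM₁ 1 (by simp))
  set P : ℂ → ℝ := fun ζ => ∫ ξ, poi (ρ * ζ) ξ ∂ν with hP
  have hPm : StronglyMeasurable P := K04_Pm ν ρ
  set K : ℝ := (1 - ρ ^ 2) / (1 - ρ) ^ 2 with hK
  have hPb : ∀ ζ : ℂ, ‖ζ‖ = 1 → ‖P ζ‖ ≤ K := by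
    intro ζ hζ
    have h4 : ‖P ζ‖ ≤ K * ν.real univ := by
      apply norm_integral_le_of_norm_le_const
      filter_upwards [K04_ae hνc] with ξ hξ
      exact K04_poi ρ hρ.1 hρ.2 ζ ξ hζ hξ
    rwa [probReal_univ, mul_one] at h4
  have hK0 : 0 ≤ K := (norm_nonneg _).trans (hPb 1 (by simp))
  have hC0 : 0 ≤ C := (hreg.nonneg 0).trans (hreg.le 0)
  -- the integral against `ν`
  have hint : ∫ ξ, H ξ ∂ν = ∫ ξ, (f ξ : ℂ) * H ξ ∂lam := by
    have h5 : ν = lam.withDensity fun ξ => ((f ξ).toNNReal : ℝ≥0∞) := hreg.dens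
    rw [h5, integral_withDensity_eq_integral_smul hreg.meas.real_toNNReal]
    refine integral_congr_ae (Filter.Eventually.of_forall fun ξ => ?_)
    simp only
    rw [NNReal.smul_def, Real.coe_toNNReal _ (hreg.nonneg ξ), Complex.real_smul]
  -- integrability
  have hIP : Integrable (fun ζ => (P ζ : ℂ) * H ζ) lam := by
    refine Integrable.of_bound
      ((Complex.continuous_ofReal.comp_stronglyMeasurable hPm).aestronglyMeasurable.mul hHl)
      (K * M₁) ?_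
    filter_upwards [K04_ae hlc] with ζ hζ
    rw [norm_mul, Complex.norm_real]
    exact mul_le_mul (hPb ζ hζ) (hM₁ ζ hζ) (norm_nonneg _) hK0
  have hIf : Integrable (fun ζ => (f ζ : ℂ) * H ζ) lam := by
    refine Integrable.of_bound
      ((Complex.continuous_ofReal.comp_stronglyMeasurable
        hreg.meas.stronglyMeasurable).aestronglyMeasurable.mul hHl)
      (C * M₁) ?_
    filter_upwards [K04_ae hlc] with ζ hζ
    rw [norm_mul, Complex.norm_real, Real.norm_eq_abs, abs_of_nonneg (hreg.nonneg ζ)]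
    exact mul_le_mul (hreg.le ζ) (hM₁ ζ hζ) (norm_nonneg _) hC0
  have hIfP : Integrable (fun ζ => |f ζ - P ζ|) lam := by
    refine Integrable.of_bound
      ((hreg.meas.stronglyMeasurable.sub hPm).norm.aestronglyMeasurable) (C + K) ?_
    filter_upwards [K04_ae hlc] with ζ hζ
    rw [Real.norm_eq_abs, abs_abs]
    have h6 := abs_sub (f ζ) (P ζ)
    rw [abs_of_nonneg (hreg.nonneg ζ)] at h6
    have h7 := hPb ζ hζ
    rw [Real.norm_eq_abs] at h7
    linarith [hreg.le ζ]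
  have hsplit : ∫ ξ, (f ξ : ℂ) * H ξ ∂lam =
      ∫ ξ, (((f ξ : ℂ) * H ξ) - (P ξ : ℂ) * H ξ) ∂lam + ∫ ξ, (P ξ : ℂ) * H ξ ∂lam := by
    rw [integral_sub hIf hIP]
    ring
  have hfirst : ‖∫ ξ, (((f ξ : ℂ) * H ξ) - (P ξ : ℂ) * H ξ) ∂lam‖ ≤ M₁ * (C * (1 - ρ) ^ a) := by
    have h8 : ‖∫ ξ, (((f ξ : ℂ) * H ξ) - (P ξ : ℂ) * H ξ) ∂lam‖ ≤ ∫ ξ, M₁ * |f ξ - P ξ| ∂lam := by
      apply norm_integral_le_of_norm_le (hIfP.const_mul M₁)
      filter_upwards [K04_ae hlc] with ζ hζ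
      rw [← sub_mul, norm_mul, ← Complex.ofReal_sub, Complex.norm_real, Real.norm_eq_abs, mul_comm]
      exact mul_le_mul_of_nonneg_right (hM₁ ζ hζ) (abs_nonneg _)
    rw [integral_const_mul] at h8
    exact h8.trans (mul_le_mul_of_nonneg_left (hreg.smooth ρ hρ) hM₁0)
  have hsecond : ‖∫ ξ, (P ξ : ℂ) * H ξ ∂lam‖ ≤ M₂ := by
    have h9 := h3 R H hR hH ν hν hνc ρ hρ
    have h10 : ∫ ξ, (P ξ : ℂ) * H ξ ∂lam = ∫ ξ, H (ρ * ξ) ∂ν := by
      rw [h9]
      refine integral_congr_ae (Filter.Eventually.of_forall fun ζ => ?_)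
      simp only [hP]
      rw [mul_comm]
    rw [h10]
    have h11 : ‖∫ ξ, H (ρ * ξ) ∂ν‖ ≤ M₂ * ν.real univ := by
      apply norm_integral_le_of_norm_le_const
      filter_upwards [K04_ae hνc] with ξ hξ
      exact hM₂ ξ hξ
    rwa [probReal_univ, mul_one] at h11
  rw [hint, hsplit]
  exact (norm_add_le _ _).trans (add_le_add hfirst hsecond)

end Pool.Agent.SG
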