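import Pool.Agent.helper3.SG.SpecN

/-!
# Project sg, module MAIN2: the working form of the theorem
-/

set_option autoImplicit false

open MeasureTheory Set Metric Filter Topology
open scoped ENNReal NNReal ComplexConjugate commutatorElement

namespace Pool.Agent.SG

theorem MAIN2_nonel {Γ : Type} [Group Γ] {A : DiscRep Γ} (h : A.NoFin) : A.NonEl := by
  intro Z hZ hn
  have h1 := h (Z : Set ℂ) Z.finite_toSet (by simpa using hZ) (by
    intro ζ hζ
    simpa [circ] using hn ζ (by simpa using hζ))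
  push Not at h1
  obtain ⟨γ, ξ, hξ, hξ2⟩ := h1
  exact ⟨γ, ξ, by simpa using hξ, by simpa using hξ2⟩

theorem MAIN2 (hZ02 : Z02_stmt) (hZ03 : Z03_stmt) (hZ04 : Z04_stmt) (hS07 : S07_stmt)
    (hS33 : S33_stmt) (hM07 : M07_stmt) : MAIN2_stmt := by
  intro Γ _ hφ hTF hNA W
  by_contra hcon
  push Not at hcon
  -- the sequence of exponents
  have hlt : ∀ k : ℕ, (1 - 1 / ((k : ℝ≥0) + 2) : ℝ≥0) < 1 := by
    intro k
    refine tsub_lt_self one_pos (by positivity)
  have hreal : ∀ k : ℕ, (((1 - 1 / ((k : ℝ≥0) + 2) : ℝ≥0)) : ℝ) = 1 - 1 / ((k : ℝ) + 2) := by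
    intro k
    rw [NNReal.coe_sub]
    · push_cast
      rfl
    · rw [div_le_one (by positivity)]
      have : (0 : ℝ≥0) ≤ k := zero_le
      calc (1 : ℝ≥0) ≤ 2 := by norm_num
        _ ≤ (k : ℝ≥0) + 2 := le_add_self
  choose A₀ hA₀ ν₀ hν₀ hdim₀ using fun k : ℕ => hcon _ (hlt k)
  choose Ak νk hAk hνk hNrm hcmp using fun k : ℕ => hZ02 Γ hTF hNA W (A₀ k) (ν₀ k) (hA₀ k) (hν₀ k)
  -- positive measure sets have large dimension
  have hbig : ∀ (k : ℕ) (B : Set ℂ), MeasurableSet B → 0 < νk k B →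
      (((1 - 1 / ((k : ℝ≥0) + 2) : ℝ≥0)) : ℝ≥0∞) < dimH B := by
    intro k B hB hpos
    have hnonel : (Ak k).NonEl := MAIN2_nonel (hS07 Γ hTF hNA (Ak k) (hAk k))
    have hstd : StdD (Ak k) W (νk k) :=
      { toStat := hνk k, disc := hAk k, nonel := hnonel }
    obtain ⟨B', hB', hB'1, hB'2⟩ := hS33 Γ (Ak k) W (νk k) (hνk k)
      (fun ν' hν' => (hM07 Γ (Ak k) W (νk k) ν' hstd hν').symm) B hB hpos
    obtain ⟨B'', hB'', hB''1, hB''2⟩ := hcmp k B' hB' hB'1
    have := (hν₀ k).prob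
    have h1 : ν₀ k B''ᶜ = 0 := (prob_compl_eq_zero_iff hB'').2 hB''1
    exact ((hdim₀ k B'' hB'' h1).trans_le hB''2).trans_le hB'2
  -- maximal length of a generator
  have hSne : W.S.Nonempty := by
    rw [Finset.nonempty_iff_ne_empty]
    intro h0
    have := W.sum
    rw [h0] at this
    simp at this
  choose s hs hsmax using fun k : ℕ => Finset.exists_max_image W.S (fun t => (Ak k).L t) hSne
  by_cases hD : Tendsto (fun k => (Ak k).L (s k)) (hyperfilter ℕ : Filter ℕ) atTop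
  · have h1 := hZ03 Γ hTF hNA W (hyperfilter ℕ) Ak νk (fun k => (Ak k).L (s k)) hAk hνk hNrm hD
      (fun k => ⟨hsmax k, s k, hs k, rfl⟩)
    obtain ⟨k, B, hB, hBpos, hBdim⟩ := h1.exists
    have h2 := hbig k B hB hBpos
    have h3 := h2.trans_le hBdim
    rw [← ENNReal.ofReal_coe_nnreal, hreal, ENNReal.ofReal_lt_ofReal_iff (by norm_num)] at h3
    have h4 : 1 / ((k : ℝ) + 2) ≤ 1 / 2 := by
      apply one_div_le_one_div_of_le (by norm_num)
      have : (0 : ℝ) ≤ k := Nat.cast_nonneg k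
      linarith
    linarith
  · rw [Filter.tendsto_atTop] at hD
    push Not at hD
    obtain ⟨D₁, hD₁⟩ := hD
    obtain ⟨δ, hδ0, hδ1, h1⟩ := hZ04 Γ hTF hNA hφ W (hyperfilter ℕ) Ak νk D₁ hAk hνk (by
      filter_upwards [hD₁] with k hk t ht
      exact (hsmax k t ht).trans hk.le)
    have h2 : ∀ᶠ k : ℕ in (hyperfilter ℕ : Filter ℕ), δ ≤ 1 - 1 / ((k : ℝ) + 2) := by
      apply Nat.hyperfilter_le_atTop
      have h3 : Tendsto (fun k : ℕ => 1 - 1 / ((k : ℝ) + 2)) atTop (𝓝 (1 - 0)) := by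
        refine tendsto_const_nhds.sub ?_
        refine Tendsto.div_atTop tendsto_const_nhds ?_
        exact tendsto_atTop_add_const_right _ _ tendsto_natCast_atTop_atTop
      rw [sub_zero] at h3
      filter_upwards [h3.eventually (lt_mem_nhds hδ1)] with k hk
      exact hk.le
    obtain ⟨k, ⟨B, hB, hBpos, hBdim⟩, hk⟩ := (h1.and h2).exists
    have h4 := (hbig k B hB hBpos).trans_le hBdim
    rw [← ENNReal.ofReal_coe_nnreal, hreal] at h4
    have h5 := ENNReal.ofReal_le_ofReal hk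
    exact absurd h4 (not_lt.2 h5)

end Pool.Agent.SG
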