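import Pool.Agent.helper17.SG.SpecR

/-!
# Project sg, module R07: the density is bounded above
-/

set_option autoImplicit false

open MeasureTheory Set Metric Filter Topology
open scoped ENNReal NNReal ComplexConjugate

namespace Pool.Agent.SG

theorem R07 (hR04 : R04_stmt) (hR05 : R05_stmt) (hR06 : R06_stmt) (hB05 : B05_stmt)
    (hB17 : B17_stmt) : R07_stmt := by
  intro Γ _ A W ν hstd hac
  obtain ⟨CU, hCU1, hCU⟩ := hR04 Γ A W ν hstd hac
  obtain ⟨M₁, hM₁, h5⟩ := hR05 Γ A W hstd.disc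
  obtain ⟨M₂, hM₂, h6⟩ := hR06 Γ A W ν hstd
  obtain ⟨C, hC, h5C⟩ := h5 (max M₁ M₂) (le_max_left _ _)
  have h6' := h6 (max M₁ M₂) (le_max_right _ _)
  have hlamprob : IsProbabilityMeasure lam := hB05.1
  have hprob : IsProbabilityMeasure ν := hstd.prob
  -- ball estimate
  have hball : ∀ (u : ℂ) (r : ℝ), ‖u‖ = 1 → 0 < r → r ≤ 1 / 4 →
      ν (closedBall u r) ≤ ENNReal.ofReal (32 * (CU * C)) * lam (closedBall u r) := by
    intro u r hu hr hr4
    have h1 := h6' u r hu hr hr4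
    obtain ⟨-, -, hlay, hsum⟩ := h5C u (2 * r) hu (by linarith) (by linarith)
    have h2 := hsum 4 (by norm_num)
    have h3 : ∑' p, (lay A u (max M₁ M₂) (2 * r)).indicator (fun p => W.hit 1 p) p ≤
        ENNReal.ofReal CU * ∑' γ, (lay A u (max M₁ M₂) (2 * r) ∩
          {γ | A.kk γ ≤ 4 * (2 * r)}).indicator A.ke γ := by
      rw [← ENNReal.tsum_mul_left]
      refine ENNReal.tsum_le_tsum fun p => ?_
      by_cases hp : p ∈ lay A u (max M₁ M₂) (2 * r)
      · have hp2 : p ∈ lay A u (max M₁ M₂) (2 * r) ∩ {γ | A.kk γ ≤ 4 * (2 * r)} :=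
          ⟨hp, (hlay p hp).2⟩
        rw [Set.indicator_of_mem hp, Set.indicator_of_mem hp2]
        refine (hCU p).trans ?_
        rw [ENNReal.ofReal_mul (by linarith)]
        exact le_rfl
      · rw [Set.indicator_of_notMem hp]
        exact zero_le
    have h4 := (hB05.2.2.1 u r hu hr.le (by linarith)).1
    calc ν (closedBall u r) ≤ _ := h1
      _ ≤ _ := h3
      _ ≤ ENNReal.ofReal CU * ENNReal.ofReal (C * 4 * (2 * r)) := by gcongr
      _ = ENNReal.ofReal (32 * (CU * C)) * ENNReal.ofReal (r / 4) := by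
        rw [← ENNReal.ofReal_mul (by linarith), ← ENNReal.ofReal_mul (by positivity)]
        congr 1
        ring
      _ ≤ _ := by gcongr
  have hae : ∀ᵐ ζ ∂lam, ∀ δ : ℝ, 0 < δ → ∃ r : ℝ, 0 < r ∧ r < δ ∧
      ν (closedBall ζ r) ≤ ENNReal.ofReal (32 * (CU * C)) * lam (closedBall ζ r) := by
    have hc : ∀ᵐ ζ ∂lam, ζ ∈ circ := by
      rw [ae_iff]
      exact hB05.2.1
    filter_upwards [hc] with ζ hζ δ hδ
    refine ⟨min (δ / 2) (1 / 4), by positivity, ?_, ?_⟩
    · exact lt_of_le_of_lt (min_le_left _ _) (by linarith)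
    · exact hball ζ _ (by simpa [circ] using hζ) (by positivity) (min_le_right _ _)
  have hfin := hB17 lam ν (ENNReal.ofReal (32 * (CU * C))) ENNReal.ofReal_ne_top hac hae
  refine ⟨max 1 (32 * (CU * C)), le_max_left _ _, fun E hE => (hfin E hE).trans ?_⟩
  gcongr
  exact le_max_right _ _

end Pool.Agent.SG
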